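import Pool.Agent.H516.PCF.All

/-! Fibres of the iterates: cardinality, membership, simple roots. -/

set_option autoImplicit false

namespace Pool.Agent.H597.PCF

open Polynomial Pool.Agent.H516.PCF

theorem wr_gp {k : Type} [Field k] (d : ℕ) (P Q : k[X]) (n : ℕ) (t : k) :
    wr (gp d P Q n t) (qn d P Q n) = wr (pn d P Q n) (qn d P Q n) := by
  unfold wr gp
  rw [derivative_sub, derivative_C_mul]
  ring

theorem fib (hDEG : S_DEG) (hORB : S_ORB) : S_FIB := by
  intro k _ _ _ d P Q hN n t
  obtain ⟨hp1, hp2, hq1, hq2, hcop, hg, -⟩ := hDEG k d P Q hN n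
  obtain ⟨hg1, hg2⟩ := hg t
  have hd : 0 < d ^ n := by
    have := hN.two_le
    positivity
  have hg0 : gp d P Q n t ≠ 0 := by
    intro h0
    rw [h0, natDegree_zero] at hg1
    omega
  have hmem : ∀ x, x ∈ Pool.Agent.H516.PCF.fib d P Q n t ↔
      ((qn d P Q n).eval x ≠ 0 ∧ fn d P Q n x = t) := by
    intro x
    unfold Pool.Agent.H516.PCF.fib
    rw [mem_roots hg0, IsRoot.def, gp, eval_sub, eval_mul, eval_C]
    constructor
    · intro h
      have hne : (qn d P Q n).eval x ≠ 0 := by
        intro h0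
        rw [h0, mul_zero, sub_zero] at h
        obtain ⟨u, v, huv⟩ := hcop
        have h1 := congrArg (Polynomial.eval x) huv
        rw [eval_add, eval_mul, eval_mul, h, h0, mul_zero, mul_zero, add_zero, eval_one] at h1
        exact zero_ne_one h1
      refine ⟨hne, ?_⟩
      unfold fn
      rw [div_eq_iff hne]
      exact sub_eq_zero.1 h
    · rintro ⟨hne, h⟩
      unfold fn at h
      rw [div_eq_iff hne] at h
      rw [h, sub_self]
  refine ⟨?_, hmem, ?_⟩
  · unfold Pool.Agent.H516.PCF.fib
    rw [← hg1]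
    exact (splits_iff_card_roots.1 (IsAlgClosed.splits _))
  · intro A hA htA
    have key : ∀ x ∈ Pool.Agent.H516.PCF.fib d P Q n t,
        x ∉ A ∧ (wr (pn d P Q n) (qn d P Q n)).eval x ≠ 0 := by
      intro x hx
      obtain ⟨h1, h2⟩ := (hmem x).1 hx
      obtain ⟨h3, h4, -⟩ := hORB k d P Q A hN hA n x h1
      refine ⟨fun h => htA ?_, fun h => htA ?_⟩
      · rw [← h2]
        exact h3 h
      · rw [← h2]
        exact h4 h
    refine ⟨?_, key⟩
    classical
    rw [Multiset.nodup_iff_count_le_one]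
    intro x
    unfold Pool.Agent.H516.PCF.fib
    rw [count_roots]
    by_contra hcon
    rw [not_le, one_lt_rootMultiplicity_iff_isRoot hg0] at hcon
    obtain ⟨h2, h1⟩ := hcon
    have hx : x ∈ Pool.Agent.H516.PCF.fib d P Q n t := by
      unfold Pool.Agent.H516.PCF.fib
      rw [mem_roots hg0]
      exact h2
    apply (key x hx).2
    rw [← wr_gp d P Q n t, wr, eval_sub, eval_mul, eval_mul, h1.eq_zero, h2.eq_zero, zero_mul,
      zero_mul, sub_zero]

end Pool.Agent.H597.PCF
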