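import Pool.Agent.H516.PCF.All

/-! Piecewise linear functions with slopes divisible by `p ^ j` and breaks in `ℤ_(p)`. -/

set_option autoImplicit false

namespace Pool.Agent.H597.PCF

open Polynomial Pool.Agent.H516.PCF

theorem divzp_add {p j : ℕ} (hp : p.Prime) {x y : ℝ} (hx : DivZp p j x) (hy : DivZp p j y) :
    DivZp p j (x + y) := by
  obtain ⟨m, hm, z, hz⟩ := hx
  obtain ⟨m', hm', z', hz'⟩ := hy
  refine ⟨m * m', fun h => (hp.dvd_mul.1 h).elim hm hm', m' * z + m * z', ?_⟩
  push_cast
  linear_combination (m' : ℝ) * hz + (m : ℝ) * hz'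

theorem divzp_zero {p : ℕ} (j : ℕ) (hp : p.Prime) : DivZp p j 0 :=
  ⟨1, fun h => hp.one_lt.ne' (Nat.dvd_one.1 h), 0, by simp⟩

/-- A linear piece. -/
theorem divzp_piece {p j : ℕ} (hp : p.Prime) {x y : ℝ} (hx : IsZp p x) (hy : IsZp p y) {s : ℤ}
    (hs : (p : ℤ) ^ j ∣ s) : DivZp p j (s * (y - x)) := by
  obtain ⟨m, hm, z, hz⟩ := hx
  obtain ⟨m', hm', z', hz'⟩ := hy
  obtain ⟨c, rfl⟩ := hs
  refine ⟨m * m', fun h => (hp.dvd_mul.1 h).elim hm hm', c * (m * z' - m' * z), ?_⟩
  push_cast
  linear_combination (p : ℝ) ^ j * c * m * hz' - (p : ℝ) ^ j * c * m' * hz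

section lin

variable {F : Type} [Field F]

omit [Field F] in
theorem sum_diff (s : Multiset F) (f g : F → ℝ) (P : F → Prop) (dp : DecidablePred P) (L : ℝ)
    (h : ∀ z ∈ s, (P z → f z - g z = L) ∧ (¬ P z → f z - g z = 0)) :
    (s.map f).sum - (s.map g).sum = (Multiset.card (@Multiset.filter _ P dp s) : ℝ) * L := by
  induction s using Multiset.induction_on with
  | empty => simp
  | cons z s ih =>
    have h1 := ih fun x hx => h x (Multiset.mem_cons_of_mem hx)
    obtain ⟨h2, h3⟩ := h z (Multiset.mem_cons_self z s)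
    rw [Multiset.map_cons, Multiset.map_cons, Multiset.sum_cons, Multiset.sum_cons]
    by_cases hz : P z
    · rw [Multiset.filter_cons_of_pos _ hz, Multiset.card_cons]
      push_cast
      linear_combination h1 + h2 hz
    · rw [Multiset.filter_cons_of_neg _ hz]
      linear_combination h1 + h3 hz

/-- The Gauss valuation is linear between two breaks. -/
theorem gv_diff (w : F → ℝ) (U : F[X]) (a : F) {ρ' ρ ρ'' : ℝ} (h1 : ρ' < ρ) (h2 : ρ < ρ'')
    (hb : ∀ z ∈ U.roots, z ≠ a → ¬ (ρ' < w (a - z) ∧ w (a - z) < ρ'')) :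
    gv w U a ρ'' - gv w U a ρ' = (cnt w U a ρ : ℝ) * (ρ'' - ρ') := by
  have e1 : gv w U a ρ'' - gv w U a ρ' = (U.roots.map fun z => mn w a z ρ'').sum -
      (U.roots.map fun z => mn w a z ρ').sum := by
    unfold gv
    ring
  rw [e1]
  unfold cnt
  refine sum_diff U.roots (fun z => mn w a z ρ'') (fun z => mn w a z ρ')
    (fun z => z = a ∨ ρ < w (a - z)) _ (ρ'' - ρ') ?_
  intro z hz
  by_cases hza : z = a
  · subst hza
    refine ⟨fun _ => ?_, fun h => absurd (Or.inl rfl) h⟩
    unfold mn
    rw [if_pos rfl, if_pos rfl]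
  · have hne : a ≠ z := fun h => hza h.symm
    have h3 := hb z hz hza
    unfold mn
    rw [if_neg hne, if_neg hne]
    constructor
    · rintro (h | h)
      · exact absurd h hza
      · have h4 : ρ'' ≤ w (a - z) := by
          by_contra hcon
          exact h3 ⟨by linarith, not_le.1 hcon⟩
        rw [min_eq_right h4, min_eq_right (by linarith)]
    · intro h
      have h4 : w (a - z) ≤ ρ' := by
        by_contra hcon
        apply h3
        refine ⟨not_le.1 hcon, ?_⟩
        have h5 : w (a - z) ≤ ρ := not_lt.1 fun h' => h (Or.inr h')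
        linarith
      rw [min_eq_left h4, min_eq_left (by linarith), sub_self]

end lin

theorem ol : S_OL := by
  intro F _ _ _ p w hp _ U V _ _ a j ρ' ρ'' hle hz' hz'' hroots hdvd
  classical
  set T : Finset ℝ := ((U.roots + V.roots).toFinset.filter (fun z => z ≠ a)).image
    (fun z => w (a - z)) with hT
  have hTz : ∀ x ∈ T, IsZp p x := by
    intro x hx
    obtain ⟨z, hz, rfl⟩ := Finset.mem_image.1 hx
    obtain ⟨h1, h2⟩ := Finset.mem_filter.1 hz
    exact hroots z (Multiset.mem_toFinset.1 h1) h2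
  have hTm : ∀ z ∈ U.roots + V.roots, z ≠ a → w (a - z) ∈ T := by
    intro z hz hza
    exact Finset.mem_image.2 ⟨z, Finset.mem_filter.2 ⟨Multiset.mem_toFinset.2 hz, hza⟩, rfl⟩
  have key : ∀ N : ℕ, ∀ x y : ℝ, x ≤ y → IsZp p x → IsZp p y →
      (T.filter (fun t => x < t ∧ t < y)).card ≤ N →
      (∀ ρ, x < ρ → ρ < y → ¬ brk w U a ρ → ¬ brk w V a ρ →
        (p : ℤ) ^ j ∣ (cnt w U a ρ : ℤ) - cnt w V a ρ) →
      DivZp p j ((gv w U a y - gv w V a y) - (gv w U a x - gv w V a x)) := by
    intro N
    induction N with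
    | zero =>
      intro x y hxy hx hy hN hd
      rcases hxy.eq_or_lt with rfl | hlt
      · rw [sub_self]
        exact divzp_zero j hp
      · have hemp : ∀ t ∈ T, ¬ (x < t ∧ t < y) := by
          intro t ht hcon
          have h1 : t ∈ T.filter (fun t => x < t ∧ t < y) := Finset.mem_filter.2 ⟨ht, hcon⟩
          rw [Finset.card_eq_zero.1 (Nat.le_zero.1 hN)] at h1
          exact Finset.notMem_empty _ h1
        have h1 : x < (x + y) / 2 := by linarith
        have h2 : (x + y) / 2 < y := by linarith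
        have hbU : ¬ brk w U a ((x + y) / 2) := by
          rintro ⟨z, hz, hza, hzw⟩
          exact hemp _ (hTm z (Multiset.mem_add.2 (Or.inl hz)) hza) (by rw [hzw]; exact ⟨h1, h2⟩)
        have hbV : ¬ brk w V a ((x + y) / 2) := by
          rintro ⟨z, hz, hza, hzw⟩
          exact hemp _ (hTm z (Multiset.mem_add.2 (Or.inr hz)) hza) (by rw [hzw]; exact ⟨h1, h2⟩)
        have gU := gv_diff w U a h1 h2 fun z hz hza =>
          hemp _ (hTm z (Multiset.mem_add.2 (Or.inl hz)) hza)
        have gV := gv_diff w V a h1 h2 fun z hz hza =>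
          hemp _ (hTm z (Multiset.mem_add.2 (Or.inr hz)) hza)
        have e : (gv w U a y - gv w V a y) - (gv w U a x - gv w V a x) =
            (((cnt w U a ((x + y) / 2) : ℤ) - cnt w V a ((x + y) / 2) : ℤ) : ℝ) * (y - x) := by
          push_cast
          linear_combination gU - gV
        rw [e]
        exact divzp_piece hp hx hy (hd _ h1 h2 hbU hbV)
    | succ N ih =>
      intro x y hxy hx hy hN hd
      by_cases hne : (T.filter (fun t => x < t ∧ t < y)).Nonempty
      · obtain ⟨t, ht⟩ := hne
        obtain ⟨htT, hxt, hty⟩ := Finset.mem_filter.1 ht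
        have hc1 : (T.filter (fun s => x < s ∧ s < t)).card ≤ N := by
          have h1 : T.filter (fun s => x < s ∧ s < t) ⊂ T.filter (fun s => x < s ∧ s < y) := by
            rw [Finset.ssubset_iff_of_subset]
            · exact ⟨t, ht, fun h => lt_irrefl _ (Finset.mem_filter.1 h).2.2⟩
            · intro s hs
              obtain ⟨a1, a2, a3⟩ := Finset.mem_filter.1 hs
              exact Finset.mem_filter.2 ⟨a1, a2, a3.trans hty⟩
          have h2 := Finset.card_lt_card h1
          omega
        have hc2 : (T.filter (fun s => t < s ∧ s < y)).card ≤ N := by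
          have h1 : T.filter (fun s => t < s ∧ s < y) ⊂ T.filter (fun s => x < s ∧ s < y) := by
            rw [Finset.ssubset_iff_of_subset]
            · exact ⟨t, ht, fun h => lt_irrefl _ (Finset.mem_filter.1 h).2.1⟩
            · intro s hs
              obtain ⟨a1, a2, a3⟩ := Finset.mem_filter.1 hs
              exact Finset.mem_filter.2 ⟨a1, hxt.trans a2, a3⟩
          have h2 := Finset.card_lt_card h1
          omega
        have i1 := ih x t hxt.le hx (hTz t htT) hc1 fun ρ r1 r2 => hd ρ r1 (r2.trans hty)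
        have i2 := ih t y hty.le (hTz t htT) hy hc2 fun ρ r1 r2 => hd ρ (hxt.trans r1) r2
        have i3 := divzp_add hp i1 i2
        have e : (gv w U a t - gv w V a t) - (gv w U a x - gv w V a x) +
            ((gv w U a y - gv w V a y) - (gv w U a t - gv w V a t)) =
            (gv w U a y - gv w V a y) - (gv w U a x - gv w V a x) := by ring
        rwa [e] at i3
      · rw [Finset.not_nonempty_iff_eq_empty] at hne
        exact ih x y hxy hx hy (by rw [hne]; simp) hd
  exact key _ ρ' ρ'' hle hz' hz'' le_rfl hdvd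

end Pool.Agent.H597.PCF
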